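import Pool.Agent.Q54.EM.StmG

set_option autoImplicit false

/-!
# Project EM: job EXI
-/

namespace Pool.Agent.Q198.EM

open Finset
open Pool.Agent.Q54.EM

theorem exi (hSTA : S_STA) (hMIN : S_MIN) (hKKT : S_KKT) (hMB1 : S_MB1) (hMB2 : S_MB2)
    (hRES : S_RES) (_hEEL : S_EEL) : S_EXI := by
  classical
  intro k hk hNo ι _ p x r hp hs hx hm hRC
  by_contra hlt
  push Not at hlt
  have hr0 := hRC.1
  have hr1 := hRC.2.1
  obtain ⟨p', x', hF, hle⟩ := hSTA ι p x k r (by omega) hr0 hr1 hp hs hx hm
  obtain ⟨P, X, hM⟩ := hMIN (Option (Option ι)) k r none (some none) ⟨p', x', hF⟩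
  have hv : PR P X k k < 1 - r ^ k := lt_of_le_of_lt ((hM.2 p' x' hF).trans hle) hlt
  have hv1 : PR P X k k < 1 := by
    have : 0 < r ^ k := pow_pos hr0 k
    linarith
  obtain ⟨l, hl, hkk⟩ := hKKT (Option (Option ι)) k r none (some none) P X hk hr0 hr1 hM hv1
  have hb1 := hMB1 (Option (Option ι)) k r none (some none) P X (by omega) hr1 hM
  have hb2 := hMB2 (Option (Option ι)) k r none (some none) P X (by omega) hr1 hM
  obtain ⟨⟨hP0, hP1, hX0, hXk, -, -, hmu⟩, -⟩ := hM
  obtain ⟨hE, hS⟩ := hRES (Option (Option ι)) P X hP0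
  have hPR : ∀ n y, PR (fun i : {i : Option (Option ι) // 0 < P i} => P i) (fun i => X i) n y =
      PR P X n y := fun n y => hE n _
  have hsum : ∀ (q : Option (Option ι) → Prop) [DecidablePred q],
      ∑ i : {i : Option (Option ι) // 0 < P i}, (if q i then P i else 0) =
        ∑ i, (if q i then P i else 0) := by
    intro q _
    have h := hS (fun i => if q i then 1 else 0)
    simpa only [mul_ite, mul_one, mul_zero] using h
  refine hNo {i : Option (Option ι) // 0 < P i} (fun i => P i) (fun i => X i) r l hRC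
    { law := ⟨fun i => i.2, ?_, fun i => hX0 i⟩
      m := ?_
      kk := ⟨hl, fun i => ?_⟩
      xk := fun i => hXk i
      z := ?_
      b1 := ?_
      b2 := ?_
      lt := ?_ }
  · have h := hS (fun _ => 1)
    simp only [mul_one] at h
    rw [h, hP1]
  · unfold mu
    rw [hS X]
    exact hmu
  · rw [hPR, hPR]
    exact hkk i i.2
  · by_contra hcon
    push Not at hcon
    have h1 : ∑ i, (if 0 < X i then P i else 0) = 1 := by
      rw [← hP1]
      refine Finset.sum_congr rfl fun i _ => ?_
      split_ifs with h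
      · rfl
      · by_contra hne
        have hpos : 0 < P i := lt_of_le_of_ne (hP0 i) hne
        exact hcon ⟨i, hpos⟩ (le_antisymm (not_lt.1 h) (hX0 i))
    rw [h1] at hb1
    linarith
  · rw [hsum (fun i => 0 < X i)]
    exact hb1
  · rw [hsum (fun i => (k : ℝ) / 2 < X i)]
    exact hb2
  · rw [hPR]
    exact hv

end Pool.Agent.Q198.EM
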