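import Pool.Agent.Q54.EM.StmE

set_option autoImplicit false

/-!
# Project EM: job GAP
-/

namespace Pool.Agent.Q198.EM

open Finset
open Pool.Agent.Q54.EM

/-- the real inequality behind the gap -/
lemma gap_real (a u t q e G V g h l k x w1 W Pk : ℝ) (hk : 0 < k) (hl : 0 < l) (hh : 0 < h)
    (ha : 0 ≤ a) (ht0 : 0 < t) (ht : t ≤ 2 / 10) (hu : u = x / k) (hlk : 1 - t = l / k)
    (haq : a = q * (1 - t)) (hq1 : q < 1) (he0 : 0 ≤ e) (he : e ≤ 2 / 10 * t)
    (hlh : l = (1 + e) * h) (hua : a + 1 / 20 < u) (hu2 : u ≤ 1 / 2)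
    (hG : G = (1 - x / h) ^ 2) (hg : g = h - x) (hV : V ≤ h * (l - h)) (hW : W = w1 * (1 - q))
    (hW0 : 0 < W) (hxl : x ≤ l) (hcan : W * g ^ 2 ≤ Pk * (V + g ^ 2))
    (hP : Pk ≤ w1 * (1 - x / l)) (hgpos : 0 < g) (hP0 : 0 ≤ Pk) :
    (u - a) * (4 / 100 + G) ≤ 4 / 100 * (8 / 10 - a) := by
  have hw1 : 0 < w1 := by
    have h1 : 0 < 1 - q := by linarith
    by_contra hcon
    push Not at hcon
    nlinarith
  have hg2 : 0 < g ^ 2 := by positivity
  have hVg : 0 < V + g ^ 2 := by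
    by_contra hcon
    push Not at hcon
    nlinarith [mul_pos hW0 hg2]
  have h1 : w1 * ((1 - q) * g ^ 2) ≤ w1 * ((1 - x / l) * (V + g ^ 2)) := by
    calc w1 * ((1 - q) * g ^ 2) = W * g ^ 2 := by rw [hW]; ring
      _ ≤ Pk * (V + g ^ 2) := hcan
      _ ≤ w1 * (1 - x / l) * (V + g ^ 2) := mul_le_mul_of_nonneg_right hP hVg.le
      _ = _ := by ring
  have h2 : (1 - q) * g ^ 2 ≤ (1 - x / l) * (V + g ^ 2) := le_of_mul_le_mul_left h1 hw1
  have hxl1 : 0 ≤ 1 - x / l := by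
    rw [sub_nonneg, div_le_one hl]; exact hxl
  have hV2 : V ≤ e * h ^ 2 := by
    refine hV.trans (le_of_eq ?_)
    rw [hlh]; ring
  have h3 : (1 - q) * g ^ 2 ≤ (1 - x / l) * (e * h ^ 2 + g ^ 2) := by
    refine h2.trans (mul_le_mul_of_nonneg_left ?_ hxl1)
    linarith
  have hgG : g ^ 2 = G * h ^ 2 := by
    rw [hG, hg]; field_simp
  have h4 : h ^ 2 * ((1 - q) * G) ≤ h ^ 2 * ((1 - x / l) * (e + G)) := by
    calc h ^ 2 * ((1 - q) * G) = (1 - q) * g ^ 2 := by rw [hgG]; ring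
      _ ≤ _ := h3
      _ = _ := by rw [hgG]; ring
  have h5 : (1 - q) * G ≤ (1 - x / l) * (e + G) := le_of_mul_le_mul_left h4 (by positivity)
  -- multiply by l/k
  have hxlu : x / l * (1 - t) = u := by
    rw [hlk, hu]; field_simp
  have h1t : 0 < 1 - t := by linarith
  have h6 : (1 - t) * ((1 - q) * G) ≤ (1 - t) * ((1 - x / l) * (e + G)) :=
    mul_le_mul_of_nonneg_left h5 h1t.le
  have e1 : (1 - t) * ((1 - q) * G) = ((1 - t) - a) * G := by rw [haq]; ring
  have e2 : (1 - t) * ((1 - x / l) * (e + G)) = ((1 - t) - u) * (e + G) := by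
    rw [← hxlu]; ring
  rw [e1, e2] at h6
  have h7 : (u - a) * G ≤ e * (1 - t - u) := by nlinarith
  have h8 : e * (1 - t - u) ≤ 2 / 10 * t * (1 - t - u) :=
    mul_le_mul_of_nonneg_right he (by linarith)
  have h9 : t * (1 - t - u) ≤ 2 / 10 * (8 / 10 - u) := by
    nlinarith [mul_nonneg (sub_nonneg.2 ht) (by linarith : (0 : ℝ) ≤ 8 / 10 - u - t)]
  nlinarith

theorem gap (hNUM : S_NUM) (hNT : S_NT) (hCS : S_CS) (_hSER : S_SER) (hEB : S_EB) (hVEH : S_VEH)
    (hCAN : S_CAN) (hGPN : S_GPN) (hPOS : S_POS) (_hLMB : S_LMB) : S_GAP := by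
  intro ι _ p x k r l hk hRC hO hl8 hlk i
  by_contra hcon
  push Not at hcon
  obtain ⟨hx1, hx2⟩ := hcon
  obtain ⟨hN, hxl, hva, hlam⟩ := hNUM ι p x k r l hk hRC hO
  obtain ⟨ha0, ha1, hc1, hc2, -, -, -, -, -⟩ := hCS k r hk hRC
  have hkpos : (0 : ℝ) < k := by
    have : 0 < k := by omega
    exact_mod_cast this
  obtain ⟨hr, haq, hq0, hq1, -, he0, ht1, -, -, -, -, -, hff, -⟩ :=
    hNT k r l (hh k p x) (PR p x (k - 1) k) (PR p x k k) (r / l) (r / k) (k * (1 - r) / r) (1 - l / k)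
      (l / hh k p x - 1) (hh k p x / r) _ hN rfl rfl rfl rfl rfl rfl rfl
  have hl0 := hN.l0
  have hh0 := hN.h0
  have ht0 : 0 < 1 - l / k := by
    rw [sub_pos, div_lt_one hkpos]; exact hlk
  have ht2 : 1 - l / k ≤ 2 / 10 := by
    have : 8 / 10 < l / k := by rw [lt_div_iff₀ hkpos]; exact hl8
    linarith
  have hq2 : r / l ≤ 37 / 100 := by
    have h1 : r / l * (8 / 10) ≤ r / l * (1 - (1 - l / k)) :=
      mul_le_mul_of_nonneg_left (by linarith) hq0.le
    rw [← haq] at h1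
    linarith
  obtain ⟨-, he2⟩ := hEB (r / l) (1 - l / k) (k * (1 - r) / r) (l / hh k p x - 1) hq0 hq2 ht0 ht1
    (by
      have : 0 ≤ 88 / 1000 * (r / (k : ℝ)) := by positivity
      linarith)
    (by rw [← haq]; exact hc1) hc2 (by rw [← haq]; exact ha1) he0
    (by rw [← haq]; exact hff)
  have he3 := he2 ht2
  have hlh : l = (1 + (l / hh k p x - 1)) * hh k p x := by field_simp; ring
  have hr0 := hRC.1
  have hr1 := hRC.2.1
  have hx0 : 0 ≤ x i := by
    have : 0 < r + (k : ℝ) / 20 := by positivity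
    linarith
  -- the bound x / h ≤ 1.3 u
  have hxh : x i / hh k p x ≤ 13 / 10 * (x i / k) := by
    rw [div_le_iff₀ hh0]
    have h1 : 8 / 10 * (k : ℝ) ≤ 104 / 100 * hh k p x := by
      have h2 : l ≤ 104 / 100 * hh k p x := by
        rw [hlh]
        exact mul_le_mul_of_nonneg_right (by linarith) hh0.le
      linarith
    have h3 : 1 ≤ 13 / 10 * (1 / (k : ℝ)) * hh k p x := by
      rw [mul_one_div, div_mul_eq_mul_div, le_div_iff₀ hkpos]
      linarith
    calc x i = x i * 1 := (mul_one _).symm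
      _ ≤ x i * (13 / 10 * (1 / (k : ℝ)) * hh k p x) := mul_le_mul_of_nonneg_left h3 hx0
      _ = _ := by ring
  have hu2 : x i / k ≤ 1 / 2 := by
    rw [div_le_iff₀ hkpos]; linarith
  have hxh1 : x i / hh k p x < 1 := by linarith
  have hg0 : 0 < hh k p x - x i := by
    rw [div_lt_one hh0] at hxh1
    linarith
  have hmu1 : mu p x < 1 := by rw [hO.m]; exact hr1
  have hmu0 : 0 < mu p x := by rw [hO.m]; exact hr0
  have hua : r / k + 1 / 20 < x i / k := by
    rw [← sub_pos]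
    have : x i / k - (r / k + 1 / 20) = (x i - (r + k / 20)) / k := by field_simp
    rw [this]
    exact div_pos (by linarith) hkpos
  have hV := hVEH ι p x k l (by omega) hO.law hmu0 hmu1 hO.kk
  have hC := hCAN ι p x k (by omega) hO.law hmu1 (x i) hx0 (by linarith)
  obtain ⟨-, hp2, -, hp4⟩ := hPOS ι p x hO.law
  have hPk : PR p x k (k - x i) ≤ PR p x (k - 1) k * (1 - x i / l) := by
    rw [← hO.kk.2 i]
    have h1 := hp4 (k - 1) (k - x i)
    rwa [Nat.sub_add_cancel (by omega)] at h1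
  have key := gap_real (r / k) (x i / k) (1 - l / k) (r / l) (l / hh k p x - 1) ((1 - x i / hh k p x) ^ 2)
    (VV k p x) (hh k p x - x i) (hh k p x) l k (x i) (PR p x (k - 1) k) (PR p x k k)
    (PR p x k (k - x i)) hkpos hl0 hh0 ha0.le ht0 ht2 rfl (by ring) haq hq1 he0 he3 hlh hua hu2 rfl rfl hV
    hN.w1e hN.W0 (hxl i) hC hPk hg0 (hp2 k _).1
  have hgp := hGPN (r / k) (x i / k) ha0.le ha1 hua.le hu2
  have hG : (1 - 13 / 10 * (x i / k)) ^ 2 ≤ (1 - x i / hh k p x) ^ 2 := by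
    have h1 : 0 ≤ 1 - 13 / 10 * (x i / k) := by linarith
    exact pow_le_pow_left₀ h1 (by linarith) 2
  have h2 : (x i / k - r / k) * (4 / 100 + (1 - 13 / 10 * (x i / k)) ^ 2) ≤
      (x i / k - r / k) * (4 / 100 + (1 - x i / hh k p x) ^ 2) :=
    mul_le_mul_of_nonneg_left (by linarith) (by linarith)
  linarith

end Pool.Agent.Q198.EM
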